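import Pool.Agent.helper60.DK.Spec

set_option autoImplicit false

/-!
Row dk:P8 (MP_fb2c2a_nt): `S_p(1/8) = 0` in `ZMod p` for `p % 3 = 2`.
-/

namespace Pool.Agent.helper60.DK

open Polynomial Finset

/-- the computation in an extension field containing a square root of `3` -/
theorem P8_aux (hWF : WF_stmt) (hME : ME_stmt) (hHALF : HALF_stmt) (p : ℕ) [hp : Fact p.Prime]
    (h5 : 5 ≤ p) (h3 : p % 3 = 2) (F : Type) [Field F] [CharP F p] (s : F) (hs : s ^ 2 = 3) :
    aeval (1 / 8 : F) (Sz p) = 0 := by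
  have hpp : p.Prime := hp.out
  have hne : ∀ n : ℕ, n ≠ 0 → n < p → ((n : ℕ) : F) ≠ 0 := by
    intro n hn hlt h0
    rw [CharP.cast_eq_zero_iff F p n] at h0
    exact absurd (Nat.le_of_dvd (Nat.pos_of_ne_zero hn) h0) (not_le.mpr hlt)
  have h2 : (2 : F) ≠ 0 := by
    have := hne 2 (by norm_num) (by omega)
    exact_mod_cast this
  have h3' : (3 : F) ≠ 0 := by
    have := hne 3 (by norm_num) (by omega)
    exact_mod_cast this
  have hs0 : s ≠ 0 := by
    intro h
    rw [h] at hs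
    exact h3' (by rw [← hs]; norm_num)
  have hodd : p % 2 = 1 := by
    rcases hpp.eq_two_or_odd with h | h
    · omega
    · exact h
  have hn : nn p = p / 3 := rfl
  have hn1 : nn p % 2 = 1 := by rw [hn]; omega
  have hnp : nn p < p := by rw [hn]; omega
  have hme := hME p F h5 s hs0
  have h4 : (4 : F) ≠ 0 := by
    have : (4 : F) = 2 * 2 := by norm_num
    rw [this]; exact mul_ne_zero h2 h2
  have h6 : (6 : F) ≠ 0 := by
    have : (6 : F) = 2 * 3 := by norm_num
    rw [this]; exact mul_ne_zero h2 h3'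
  have h8 : (8 : F) ≠ 0 := by
    have : (8 : F) = 2 * 4 := by norm_num
    rw [this]; exact mul_ne_zero h2 h4
  have h9 : (9 : F) ≠ 0 := by
    have : (9 : F) = 3 * 3 := by norm_num
    rw [this]; exact mul_ne_zero h3' h3'
  have h54 : (54 : F) ≠ 0 := by
    have : (54 : F) = 6 * 9 := by norm_num
    rw [this]; exact mul_ne_zero h6 h9
  have hB : (-((s - 1) ^ 2 * (s + 2)) / 4 : F) = -1 / 2 := by
    rw [div_eq_div_iff h4 h2]
    linear_combination (-2 * s) * hs
  rw [hB, (hHALF p F h5 (nn p) hn1 hnp).1] at hme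
  have hy0 : aeval (-((s - 1) * (s + 2) ^ 2) / (2 * s ^ 3)) (Dz (nn p)) = 0 := by
    rcases mul_eq_zero.mp hme with h | h
    · exact absurd h (pow_ne_zero _ hs0)
    · exact h
  have h98 : (1 : F) + 1 / 8 = 9 / 8 := by
    rw [eq_div_iff h8, add_mul, one_div, inv_mul_cancel₀ h8]
    norm_num
  have hx1 : (1 : F) + 1 / 8 ≠ 0 := by
    rw [h98]
    exact div_ne_zero h9 h8
  have e1 : (s - 1) * (s + 2) ^ 2 = 3 * s + 5 := by linear_combination (s + 3) * hs
  have e2 : 2 * s ^ 3 = 6 * s := by linear_combination (2 * s) * hs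
  have h6s : (6 * s : F) ≠ 0 := mul_ne_zero h6 hs0
  have e3 : (1 : F) + -(3 * s + 5) / (6 * s) = (3 * s - 5) / (6 * s) := by
    rw [eq_div_iff h6s, add_mul, div_mul_cancel₀ _ h6s]
    ring
  have hyv : (-(3 * s + 5) / (6 * s)) * (1 + -(3 * s + 5) / (6 * s)) = (-1 / 54 : F) := by
    rw [e3, div_mul_div_comm, div_eq_div_iff (mul_ne_zero h6s h6s) h54]
    linear_combination (-450) * hs
  have hval : 16 * (1 + 1 / 8 : F) ^ 3 *
      ((-((s - 1) * (s + 2) ^ 2) / (2 * s ^ 3)) * (1 + (-((s - 1) * (s + 2) ^ 2) / (2 * s ^ 3))))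
      = -27 * (1 / 8) ^ 2 := by
    rw [e1, e2, hyv, h98]
    have k1 : (16 : F) * (9 / 8) ^ 3 * (-1 / 54) = (16 * 9 ^ 3 * (-1)) / (8 ^ 3 * 54) := by
      rw [div_pow, ← mul_div_assoc (16 : F) (9 ^ 3) (8 ^ 3), div_mul_div_comm]
    have k2 : (-27 : F) * (1 / 8) ^ 2 = -27 / 8 ^ 2 := by
      rw [div_pow, one_pow, ← mul_div_assoc, mul_one]
    rw [k1, k2, div_eq_div_iff (mul_ne_zero (pow_ne_zero 3 h8) h54) (pow_ne_zero 2 h8)]
    norm_num
  have hwf := hWF p F h5 (1 / 8) (-((s - 1) * (s + 2) ^ 2) / (2 * s ^ 3)) hx1 hval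
  rw [hy0] at hwf
  rw [hwf]
  ring

theorem P8 (hWF : WF_stmt) (hME : ME_stmt) (hHALF : HALF_stmt) : P8_stmt := by
  intro p hp h5 h3
  haveI : CharP (AlgebraicClosure (ZMod p)) p :=
    charP_of_injective_algebraMap
      (algebraMap (ZMod p) (AlgebraicClosure (ZMod p))).injective p
  obtain ⟨s, hs⟩ : ∃ s : AlgebraicClosure (ZMod p), s ^ 2 = 3 :=
    IsAlgClosed.exists_pow_nat_eq (3 : AlgebraicClosure (ZMod p)) (by norm_num)
  have h0 := P8_aux hWF hME hHALF p h5 h3 (AlgebraicClosure (ZMod p)) s hs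
  have hmap : (1 / 8 : AlgebraicClosure (ZMod p))
      = algebraMap (ZMod p) (AlgebraicClosure (ZMod p)) (1 / 8) := by
    rw [map_div₀, map_one, map_ofNat]
  rw [hmap, aeval_algebraMap_apply] at h0
  exact (map_eq_zero_iff _ (algebraMap (ZMod p) (AlgebraicClosure (ZMod p))).injective).mp h0

end Pool.Agent.helper60.DK
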